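import Mathlib
import Pool.Agent.Lib.MP_058a58_ag.Fs.Defs
import Pool.Agent.Lib.MP_058a58_ag.Fs.One4

/-!
# The existence of the orders of poles forces their values

`K` is a number field, `E_1, ..., E_r` are elliptic curves over `K`, with Frobenius eigenvalues
`α i v`, `conj (α i v)` at the primes `v` outside of a finite set `S` (only `|α i v|² = N v` is
used), `X_n = ∏ E_i ^ (n i)`, and `P n m v` is the local factor of `H^{2m}(X_n)` at `v`: outside of
`S` it is `localPoly`, in `S` it is any polynomial that does not vanish at `N v ^ (-(m + 1))`.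

No hypothesis is made.  One of the following holds.

* the order of `L(H^{2m}(X_n), s)` at `s = m + 1` does not exist for some `n`, `m`, `dim X_n = 2m`;
* (A) the order is `-rank n m` for all `n`, `m`;
* (B) for some `i` the Frobenius angles of `E_i` concentrate on `(π / q) ℤ`, and the orders of all
  powers of `E_i` are given by a periodic law `c`, `c 0 = 2`; and the order for `H^12(E_i^12)` is
  not `-rank` or some `L(Sym^{2n} E_i, s)` vanishes at its edge `s = n + 1`;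
* (C) the orders of all powers of some `E_i` are given by one of the explicit laws `OtherLaw`;
* (D) the absolute values of the Frobenius traces of two of the curves agree asymptotically, and
  the order for `H^4(E_i^2 × E_j^2)` is `-4`, `-12` or `-20`.
-/

open NumberField Polynomial Filter Topology
open IsDedekindDomain (HeightOneSpectrum)

namespace Pool.Agent.Results.MP_058a58_ag.PowersRigidity

open TatePole.Fs

theorem result (K : Type*) [Field K] [NumberField K] (r : ℕ)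
    (S : Finset (HeightOneSpectrum (𝓞 K)))
    (α : Fin r → HeightOneSpectrum (𝓞 K) → ℂ) (hα : ∀ i, ∀ v ∉ S, ‖α i v‖ ^ 2 = Nv v)
    (P : (Fin r → ℕ) → ℕ → HeightOneSpectrum (𝓞 K) → ℂ[X])
    (hP : ∀ n m, ∀ v ∉ S, P n m v = localPoly (fun i => α i v) n m)
    (hbad : ∀ n m, ∀ v ∈ S, (P n m v).eval ((Nv v : ℂ) ^ (-((m : ℂ) + 1))) ≠ 0) :
    (∃ (n : Fin r → ℕ) (m : ℕ), ∑ i, n i = 2 * m ∧ ∀ k : ℤ, ¬ HasOrd (P n m) m k) ∨
    (∀ n m, HasOrd (P n m) m (-rank n m)) ∨
    (∃ (i : Fin r) (q : ℕ) (c : ℕ → ℤ), 1 ≤ q ∧ c 0 = 2 ∧ (∀ j, c (j + q) = c j) ∧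
      (∀ N m, HasOrd (P (Pi.single i N) m) m (-lawRank c N m)) ∧
      (∀ ε : ℝ, 0 < ε → DensZero {v | ε ≤ |Real.sin (q * Complex.arg (α i v))|}) ∧
      (¬ HasOrd (P (Pi.single i 12) 6) 6 (-rank (Pi.single i 12) 6) ∨
        ∃ (n : ℕ) (k : ℤ) (Q : HeightOneSpectrum (𝓞 K) → ℂ[X]), 0 < k ∧ (∀ v ∈ S, Q v = 1) ∧
          (∀ v ∉ S, Q v = symPoly (α i v) n) ∧ HasOrd Q n k)) ∨
    (∃ (i : Fin r) (c : ℕ → ℤ), OtherLaw c ∧
      ∀ N m, HasOrd (P (Pi.single i N) m) m (-lawRank c N m)) ∨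
    (∃ i j : Fin r, i ≠ j ∧
      (∃ k : ℤ, (k = -1 ∨ k = 0 ∨ k = 1) ∧
        HasOrd (P (Pi.single i 2 + Pi.single j 2) 2) 2 (-(12 + 8 * k))) ∧
      ∀ ε : ℝ, 0 < ε → DensZero {v | ε ≤
        |Real.cos (Complex.arg (α i v)) ^ 2 - Real.cos (Complex.arg (α j v)) ^ 2|}) := by
  by_cases h : ∃ (n : Fin r → ℕ) (m : ℕ), ∑ i, n i = 2 * m ∧ ∀ k : ℤ, ¬ HasOrd (P n m) m k
  · exact Or.inl h
  · right
    push Not at h
    exact rigidity4 K r S α hα P hP hbad h

end Pool.Agent.Results.MP_058a58_ag.PowersRigidity
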